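import Pool.Agent.Lib.MP_9fa4ca_an.CR.Main

/-!
# MP_9fa4ca_an : an arithmetic condition on the rotation numbers

`henon b c (x, y) = (p x - b y, x)`, `p x = ∑ c i * x ^ i`. `RotDom b c A`: `A` is an annular rotation
domain. `RotNum b c A α`: `α` is a rotation number of the map on `A`.
-/

set_option autoImplicit false

namespace Pool.Agent.Results.MP_9fa4ca_an.CremerCondition

open Pool.Agent.Lib.MP9fa4ca

/-- Every rotation number `α` of every annular rotation domain of a real conservative Hénon map of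
degree `d` satisfies `|q α - m| ≥ exp (-K d ^ ⌈q / 2⌉)` for all integers `q ≥ 1` and `m`, with a
constant `K` (`(q + 1) / 2` is the integer part). Consequently the numbers of one residual set are not
the rotation number of any annular rotation domain of any real conservative Hénon map. -/
theorem result :
    (∀ (d : ℕ) (b : ℝ) (c : Fin (d + 1) → ℝ) (A : Set (ℝ × ℝ)) (α : ℝ), 2 ≤ d →
      (b = 1 ∨ b = -1) → c (Fin.last d) ≠ 0 → RotDom b c A → RotNum b c A α →
        ∃ K : ℝ, ∀ q : ℕ, 1 ≤ q → ∀ m : ℤ,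
          Real.exp (-(K * (d : ℝ) ^ ((q + 1) / 2))) ≤ |q * α - m|) ∧
    ∃ S ∈ residual ℝ, ∀ (d : ℕ) (b : ℝ) (c : Fin (d + 1) → ℝ) (A : Set (ℝ × ℝ)) (α : ℝ), 2 ≤ d →
      (b = 1 ∨ b = -1) → c (Fin.last d) ≠ 0 → RotDom b c A → RotNum b c A α → α ∉ S :=
  cremer_all

end Pool.Agent.Results.MP_9fa4ca_an.CremerCondition
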