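import Pool.Agent.Lib.MP_9fa4ca_an.PD.All

/-!
# MP_9fa4ca_an : persistence of annular rotation domains

`henon b c (x, y) = (p x - b y, x)`, `p x = ∑ c i * x ^ i`. `RotDom b c A`: `A` is an annular rotation
domain. `RotNum b c A α`: `α` is a rotation number of the map on `A`. `Persistent b c α V O H`: the
`O t`, `t ∈ V`, are annular rotation domains of the maps `henon b (c t)`, jointly open, with a jointly
continuous semiconjugacy `H` to the rotation by `α`. `RotSet d b`: the coefficients of the degree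
`d` maps with an annular rotation domain.
-/

set_option autoImplicit false

open Set

namespace Pool.Agent.Results.MP_9fa4ca_an.PersistentDomains

open Pool.Agent.Lib.MP9fa4ca

universe u

/-- (1) Let `t ↦ henon b (c t)` be a continuous family. Outside of a meagre set of parameters every
annular rotation domain contains a persistent one, with an irrational rotation number from a fixed
countable set. (2) The set of the parameters whose map has an annular rotation domain is the union of
its interior and of a meagre set. (3) There is a nonempty open set of maps with annular rotation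
domains if and only if, for some degree, the set of the maps with an annular rotation domain is not
meagre. -/
theorem result :
    (∀ (X : Type u) [TopologicalSpace X] [SecondCountableTopology X] [LocallyConnectedSpace X]
      (d : ℕ), 2 ≤ d → ∀ b : ℝ, (b = 1 ∨ b = -1) → ∀ c : X → Fin (d + 1) → ℝ, Continuous c →
      (∀ t, c t (Fin.last d) ≠ 0) →
      (∃ (S : Set ℝ) (M : Set X), S.Countable ∧ IsMeagre M ∧ ∀ t₀ ∉ M, ∀ A : Set (ℝ × ℝ),
        RotDom b (c t₀) A → (∀ α, RotNum b (c t₀) A α → α ∈ S) ∧
        ∃ α ∈ S, Irrational α ∧ ∃ (V : Set X) (O : X → Set (ℝ × ℝ)) (H : X × (ℝ × ℝ) → Circle),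
          t₀ ∈ V ∧ O t₀ ⊆ A ∧ Persistent b c α V O H) ∧
      IsMeagre ({t | ∃ A, RotDom b (c t) A} \ interior {t | ∃ A, RotDom b (c t) A})) ∧
    (∀ d : ℕ, 2 ≤ d → ∀ b : ℝ, (b = 1 ∨ b = -1) →
      IsMeagre (RotSet d b \ interior (RotSet d b))) ∧
    ((∃ d : ℕ, 2 ≤ d ∧ ∃ b : ℝ, (b = 1 ∨ b = -1) ∧ ∃ U : Set (Fin (d + 1) → ℝ), IsOpen U ∧
      U.Nonempty ∧ ∀ c ∈ U, c (Fin.last d) ≠ 0 ∧ ∃ A : Set (ℝ × ℝ), RotDom b c A) ↔
      ∃ d : ℕ, 2 ≤ d ∧ ∃ b : ℝ, (b = 1 ∨ b = -1) ∧ ¬ IsMeagre (RotSet d b)) :=
  ⟨fun X _ _ _ d hd b hb c hc hlast => ⟨PD.persistent PD.allPER d hd b hb c hc hlast,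
      PD.meagre_family PD.allPER d hd b hb c hc hlast⟩,
    fun d hd b hb => PD.meagre_rotSet PD.allPER d hd b hb, PD.open_iff PD.allPER⟩

end Pool.Agent.Results.MP_9fa4ca_an.PersistentDomains
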