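import Pool.Agent.Lib.MP_9fa4ca_an.Fin3

/-!
# MP_9fa4ca_an : annular rotation domains are semiconjugate to irrational rotations

`f (x, y) = (p x - b y, x)`, `b = 1` or `b = -1`, `p` continuous (in particular a polynomial). `A`
is a bounded open set which is homeomorphic to an open annulus (by `e`), `f '' A = A`, and `A`
contains no periodic point of `f`.
-/

set_option autoImplicit false

namespace Pool.Agent.Results.MP_9fa4ca_an.SemiconjugateToRotation

/-- There are an irrational `α` and a continuous real function `u` on `A` such that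
`h = (circle coordinate of e) * exp (i u)` satisfies `h (f q) = exp (2 π i α) * h q`. -/
theorem result (p : ℝ → ℝ) (hp : Continuous p) (b : ℝ) (hb1 : b = 1 ∨ b = -1)
    (A : Set (ℝ × ℝ)) (hA : IsOpen A) (hb : Bornology.IsBounded A)
    (e : ↥A ≃ₜ (Circle × ↥(Set.Ioo (0 : ℝ) 1)))
    (hinv : (fun q : ℝ × ℝ => (p q.1 - b * q.2, q.1)) '' A = A)
    (hper : ∀ q ∈ A, ∀ n : ℕ, 1 ≤ n → (fun q : ℝ × ℝ => (p q.1 - b * q.2, q.1))^[n] q ≠ q) :
    ∃ (α : ℝ) (u : ℝ × ℝ → ℝ), Irrational α ∧ ContinuousOn u A ∧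
      ∀ q (hq : q ∈ A) (hq' : (p q.1 - b * q.2, q.1) ∈ A),
        (e ⟨(p q.1 - b * q.2, q.1), hq'⟩).1 * Circle.exp (u (p q.1 - b * q.2, q.1)) =
          Circle.exp (2 * Real.pi * α) * ((e ⟨q, hq⟩).1 * Circle.exp (u q)) :=
  Pool.Agent.Lib.MP9fa4ca.semiconjugate p hp b hb1 A hA hb e hinv hper

end Pool.Agent.Results.MP_9fa4ca_an.SemiconjugateToRotation
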